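import Pool.Agent.Helper53.Pq.Goals

/-!
GI1: the key inequality `∫ (1 - |φ|^s)/t² ≥ (π/2) 2^(θ-1/2) √s` for `s ≥ 2`.
-/

set_option autoImplicit false

namespace Pool.Agent.Helper13.Pq

open MeasureTheory Set
open Pool.Agent.Helper53.Pq

/-! ### Scalar lemmas -/

theorem exp_neg_le {y : ℝ} (hy : 0 ≤ y) : Real.exp (-y) ≤ 1 - y + y ^ 2 / 2 := by
  have h1 := Real.quadratic_le_exp_of_nonneg hy
  rw [Real.exp_neg]
  have h2 : 0 < 1 + y + y ^ 2 / 2 := by positivity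
  have h3 : (Real.exp y)⁻¹ ≤ (1 + y + y ^ 2 / 2)⁻¹ := inv_anti₀ h2 h1
  refine h3.trans ?_
  rw [inv_le_iff_one_le_mul₀ h2]
  nlinarith [pow_nonneg hy 4]

/-- The function `G(y) = y² log y/2 - y²/4`. -/
noncomputable def GG (y : ℝ) : ℝ := y * (y * Real.log y) / 2 - y ^ 2 / 4

theorem key_scalar (c l y1 y2 : ℝ) (hc : 0 ≤ c) (h0 : 0 ≤ y1) (h12 : y1 ≤ y2) :
    (2 + c) * Real.exp (c * l) * ((1 - c * l) * (y2 ^ 2 - y1 ^ 2) / 2 + c * (GG y2 - GG y1)) ≤
      y2 ^ (2 + c) - y1 ^ (2 + c) := by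
  let f : ℝ → ℝ := fun y => y ^ (2 + c) - (2 + c) * Real.exp (c * l) *
    ((1 - c * l) * y ^ 2 / 2 + c * GG y)
  have hcontG : Continuous GG := by
    unfold GG
    exact ((continuous_id.mul Real.continuous_mul_log).div_const 2).sub (by fun_prop)
  have hcont : Continuous f := by
    have h1 : Continuous (fun y : ℝ => y ^ (2 + c)) := by
      apply Real.continuous_rpow_const; linarith
    exact h1.sub (by fun_prop)
  have hder : ∀ y : ℝ, 0 < y → HasDerivAt f ((2 + c) * y ^ (2 + c - 1) -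
      (2 + c) * Real.exp (c * l) * ((1 - c * l) * y + c * (y * Real.log y))) y := by
    intro y hy
    have h1 : HasDerivAt (fun y : ℝ => y ^ (2 + c)) ((2 + c) * y ^ (2 + c - 1)) y :=
      Real.hasDerivAt_rpow_const (Or.inl hy.ne')
    have h2 : HasDerivAt (fun y : ℝ => y * Real.log y) (1 * Real.log y + y * y⁻¹) y :=
      (hasDerivAt_id y).mul (Real.hasDerivAt_log hy.ne')
    have h3 : HasDerivAt (fun y : ℝ => y * (y * Real.log y))
        (1 * (y * Real.log y) + y * (1 * Real.log y + y * y⁻¹)) y :=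
      (hasDerivAt_id y).mul h2
    have h4 : HasDerivAt (fun y : ℝ => y ^ 2) (2 * y) y := by
      simpa using hasDerivAt_pow 2 y
    have h5 : HasDerivAt GG (y * Real.log y) y := by
      have h51 := (h3.div_const 2).sub (h4.div_const 4)
      have e : (1 * (y * Real.log y) + y * (1 * Real.log y + y * y⁻¹)) / 2 - 2 * y / 4 =
          y * Real.log y := by
        rw [mul_inv_cancel₀ hy.ne']; ring
      rw [e] at h51
      exact h51
    have h6 := (h4.const_mul (1 - c * l)).div_const 2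
    have h7 := ((h6.add (h5.const_mul c)).const_mul ((2 + c) * Real.exp (c * l)))
    have h8 := h1.sub h7
    have e : (2 + c) * y ^ (2 + c - 1) - (2 + c) * Real.exp (c * l) *
        ((1 - c * l) * (2 * y) / 2 + c * (y * Real.log y)) =
        (2 + c) * y ^ (2 + c - 1) -
      (2 + c) * Real.exp (c * l) * ((1 - c * l) * y + c * (y * Real.log y)) := by ring
    rw [e] at h8
    exact h8
  have hmono : MonotoneOn f (Ici 0) := by
    apply monotoneOn_of_deriv_nonneg (convex_Ici 0) hcont.continuousOn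
    · intro y hy
      rw [interior_Ici] at hy
      exact (hder y hy).differentiableAt.differentiableWithinAt
    · intro y hy
      rw [interior_Ici] at hy
      have hy0 : 0 < y := hy
      rw [(hder y hy0).deriv]
      have h1 : y ^ (2 + c - 1) = y * y ^ c := by
        have : 2 + c - 1 = 1 + c := by ring
        rw [this, Real.rpow_add hy0, Real.rpow_one]
      have h2 : y ^ c = Real.exp (c * l) * Real.exp (c * (Real.log y - l)) := by
        rw [Real.rpow_def_of_pos hy0, ← Real.exp_add]; congr 1; ring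
      have h3 := Real.add_one_le_exp (c * (Real.log y - l))
      have h4 : 0 ≤ (2 + c) * y * Real.exp (c * l) *
          (Real.exp (c * (Real.log y - l)) - (c * (Real.log y - l) + 1)) := by
        apply mul_nonneg
        · have := Real.exp_pos (c * l); positivity
        · linarith
      rw [h1, h2]
      linarith [h4]
  have := hmono (mem_Ici.2 h0) (mem_Ici.2 (h0.trans h12)) h12
  simp only [f] at this
  linarith

theorem exp485 : Real.exp 0.485 ≤ 1.625 := by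
  have h := Real.exp_bound' (x := 0.485) (by norm_num) (by norm_num) (n := 5) (by norm_num)
  refine h.trans ?_
  norm_num [Finset.sum_range_succ, Nat.factorial]

theorem exp388 {c : ℝ} (hc : 0 ≤ c) (hc2 : c ≤ 1.25) : Real.exp (0.388 * c) ≤ 1 + c / 2 := by
  have h := convexOn_exp.2 (mem_univ (0.485 : ℝ)) (mem_univ (0 : ℝ))
    (show 0 ≤ c / 1.25 by positivity) (show 0 ≤ 1 - c / 1.25 by
      rw [sub_nonneg, div_le_one (by norm_num)]; exact hc2) (by ring)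
  simp only [smul_eq_mul, Real.exp_zero] at h
  have h1 : c / 1.25 * 0.485 + (1 - c / 1.25) * 0 = 0.388 * c := by ring
  rw [h1] at h
  have h2 : c / 1.25 * Real.exp 0.485 ≤ c / 1.25 * 1.625 :=
    mul_le_mul_of_nonneg_left exp485 (by positivity)
  have h3 : c / 1.25 * 1.625 + (1 - c / 1.25) * 1 = 1 + c / 2 := by ring
  linarith

/-! ### Gaussian moments -/

theorem rpow_sqrt {b : ℝ} (hb : 0 < b) (n : ℕ) : b ^ (-((n : ℝ) / 2)) = 1 / √b ^ n := by
  rw [Real.rpow_neg hb.le, Real.sqrt_eq_rpow, ← Real.rpow_natCast, ← Real.rpow_mul hb.le]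
  rw [one_div]; congr 2; ring

theorem int_t2 {b : ℝ} (hb : 0 < b) :
    IntegrableOn (fun t : ℝ => t ^ 2 * Real.exp (-(b * t ^ 2))) (Ioi 0) ∧
    ∫ t in Ioi (0 : ℝ), t ^ 2 * Real.exp (-(b * t ^ 2)) = √Real.pi / (4 * √b ^ 3) := by
  have hcongr : ∀ t ∈ Ioi (0 : ℝ), t ^ (2 : ℝ) * Real.exp (-b * t ^ (2 : ℝ)) =
      t ^ 2 * Real.exp (-(b * t ^ 2)) := by
    intro t _; rw [Real.rpow_two]; ring_nf
  constructor
  · have h := integrableOn_rpow_mul_exp_neg_mul_rpow (p := 2) (s := 2) (b := b) (by norm_num)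
      (by norm_num) hb
    exact h.congr_fun hcongr measurableSet_Ioi
  · have h := integral_rpow_mul_exp_neg_mul_rpow (p := 2) (q := 2) (b := b) (by norm_num)
      (by norm_num) hb
    rw [setIntegral_congr_fun measurableSet_Ioi hcongr] at h
    rw [h]
    have h1 : -((2 : ℝ) + 1) / 2 = -(((3 : ℕ) : ℝ) / 2) := by norm_num
    have h2 : Real.Gamma ((2 + 1) / 2) = √Real.pi / 2 := by
      have : ((2 : ℝ) + 1) / 2 = 1 / 2 + 1 := by norm_num
      rw [this, Real.Gamma_add_one (by norm_num), Real.Gamma_one_half_eq]; ring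
    rw [h1, rpow_sqrt hb, h2]
    have : 0 < √b := Real.sqrt_pos.2 hb
    field_simp
    ring

theorem int_t6 {b : ℝ} (hb : 0 < b) :
    IntegrableOn (fun t : ℝ => t ^ 6 * Real.exp (-(b * t ^ 2))) (Ioi 0) ∧
    ∫ t in Ioi (0 : ℝ), t ^ 6 * Real.exp (-(b * t ^ 2)) = 15 * √Real.pi / (16 * √b ^ 7) := by
  have hcongr : ∀ t ∈ Ioi (0 : ℝ), t ^ (6 : ℝ) * Real.exp (-b * t ^ (2 : ℝ)) =
      t ^ 6 * Real.exp (-(b * t ^ 2)) := by
    intro t _
    rw [Real.rpow_two, show (6 : ℝ) = ((6 : ℕ) : ℝ) by norm_num, Real.rpow_natCast]; ring_nf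
  constructor
  · have h := integrableOn_rpow_mul_exp_neg_mul_rpow (p := 2) (s := 6) (b := b) (by norm_num)
      (by norm_num) hb
    exact h.congr_fun hcongr measurableSet_Ioi
  · have h := integral_rpow_mul_exp_neg_mul_rpow (p := 2) (q := 6) (b := b) (by norm_num)
      (by norm_num) hb
    rw [setIntegral_congr_fun measurableSet_Ioi hcongr] at h
    rw [h]
    have h1 : -((6 : ℝ) + 1) / 2 = -(((7 : ℕ) : ℝ) / 2) := by norm_num
    have h2 : Real.Gamma ((6 + 1) / 2) = 15 * √Real.pi / 8 := by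
      have e1 : ((6 : ℝ) + 1) / 2 = 1 / 2 + 1 + 1 + 1 := by norm_num
      rw [e1, Real.Gamma_add_one (by norm_num), Real.Gamma_add_one (by norm_num),
        Real.Gamma_add_one (by norm_num), Real.Gamma_one_half_eq]; ring
    rw [h1, rpow_sqrt hb, h2]
    have : 0 < √b := Real.sqrt_pos.2 hb
    field_simp
    ring

/-! ### Parameters -/

/-- `κ = (π/8) 4^θ`. -/
noncomputable def kap (θ : ℝ) : ℝ := Real.pi / 8 * ((2 : ℝ) ^ θ) ^ 2

theorem tw_pos (θ : ℝ) : 0 < (2 : ℝ) ^ θ := Real.rpow_pos_of_pos (by norm_num) θ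

theorem kap_pos (θ : ℝ) : 0 < kap θ := by
  unfold kap
  have := tw_pos θ
  have := Real.pi_pos
  positivity

theorem lhs_eq (θ : ℝ) {s : ℝ} (hs : 0 ≤ s) :
    Real.pi / 2 * (2 : ℝ) ^ (θ - 1 / 2) * √s = √(Real.pi * (kap θ * s)) := by
  have h0 : 0 ≤ Real.pi / 2 * (2 : ℝ) ^ (θ - 1 / 2) * √s := by
    have := Real.pi_pos
    have := tw_pos (θ - 1 / 2)
    positivity
  have h1 : (2 : ℝ) ^ (θ - 1 / 2) = (2 : ℝ) ^ θ / √2 := by
    rw [Real.rpow_sub (by norm_num), ← Real.sqrt_eq_rpow]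
  have h2 : Real.pi * (kap θ * s) = (Real.pi / 2 * (2 : ℝ) ^ (θ - 1 / 2) * √s) ^ 2 := by
    rw [h1]
    unfold kap
    rw [mul_pow, mul_pow, div_pow, div_pow, Real.sq_sqrt hs, Real.sq_sqrt (by norm_num)]
    ring
  rw [h2, Real.sqrt_sq h0]

theorem bounds (hNum : GNum) {θ : ℝ} (h1 : 1 / 6 ≤ θ) (h2 : θ ≤ 1 / 4) :
    0 < vv θ ∧ vv θ ≤ 0.111 ∧ 0.26 ≤ cA θ ∧ 0.63 ≤ HH θ ∧ HH θ ≤ 0.817 ∧
    kap θ ≤ (1 + vv θ) / 2 := by
  obtain ⟨hv1, hv2, -, -, -, hA0⟩ := hNum.1 θ h1 h2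
  have hvlo : 0.047 ≤ vv θ := by nlinarith
  have hvhi : vv θ ≤ 0.111 := by nlinarith
  refine ⟨by linarith, hvhi, ?_, ?_, ?_, ?_⟩
  · unfold cA; linarith
  · unfold HH; linarith
  · unfold HH; linarith
  · have h3 : √(Real.pi / 8) * (2 : ℝ) ^ θ ≤ √((1 + vv θ) / 2) := by linarith
    have h4 := tw_pos θ
    have h5 := mul_self_le_mul_self (by positivity) h3
    rw [Real.mul_self_sqrt (by linarith)] at h5
    have h6 : √(Real.pi / 8) * (2 : ℝ) ^ θ * (√(Real.pi / 8) * (2 : ℝ) ^ θ) =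
        (√(Real.pi / 8) * √(Real.pi / 8)) * ((2 : ℝ) ^ θ) ^ 2 := by ring
    rw [h6, Real.mul_self_sqrt (by have := Real.pi_pos; positivity)] at h5
    exact h5

theorem logH (hNum : GNum) {θ : ℝ} (h1 : 1 / 6 ≤ θ) (h2 : θ ≤ 1 / 4) :
    Real.log (HH θ) ≤ -0.183 := by
  obtain ⟨-, -, -, h3, h4, -⟩ := bounds hNum h1 h2
  have := Real.log_le_sub_one_of_pos (show 0 < HH θ by linarith)
  linarith

theorem phi_le (hNum : GNum) (hA1 : GA1) {θ : ℝ} {φ : ℝ → ℝ} (hF : Fn θ φ) {t : ℝ} (ht : 0 ≤ t)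
    (ht2 : t ≤ Real.pi / 2) : |φ t| ≤ Real.exp (-(kap θ * t ^ 2)) := by
  obtain ⟨h1, -, h3, -, -, h6⟩ := bounds hNum hF.lo hF.hi
  refine (hA1 θ φ hF t ht ht2).trans (Real.exp_le_exp.2 ?_)
  have h7 : kap θ * t ^ 2 ≤ (1 + vv θ) / 2 * t ^ 2 := mul_le_mul_of_nonneg_right h6 (sq_nonneg t)
  have h8 : 0 ≤ cA θ * ((1 + vv θ) * t ^ 2 / 2) ^ 2 := by
    apply mul_nonneg (by linarith) (sq_nonneg _)
  linarith

theorem intF1 {θ : ℝ} {φ : ℝ → ℝ} (hF : Fn θ φ) {s : ℝ} (hs : 2 ≤ s) :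
    IntegrableOn (fun t => (1 - |φ t| ^ s) / t ^ 2) (Ioi 0) := by
  have h := (hF.int2).const_mul (s / 2)
  refine Integrable.mono' h ?_ ?_
  · apply Measurable.aestronglyMeasurable
    have h1 : Measurable (fun t => |φ t|) := continuous_abs.measurable.comp hF.meas
    exact (measurable_const.sub (h1.pow_const s)).div (measurable_id.pow_const 2)
  · refine (ae_restrict_iff' measurableSet_Ioi).2 (Filter.Eventually.of_forall ?_)
    intro t ht
    have ht0 : (0 : ℝ) < t := ht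
    have h1 : |φ t| ^ s ≤ 1 := Real.rpow_le_one (abs_nonneg _) (hF.abs_le t) (by linarith)
    have h2 : 1 + (s / 2) * (φ t ^ 2 - 1) ≤ |φ t| ^ s := by
      have h3 := one_add_mul_self_le_rpow_one_add (s := φ t ^ 2 - 1) (p := s / 2)
        (by nlinarith [sq_nonneg (φ t)]) (by linarith)
      refine h3.trans (le_of_eq ?_)
      have h4 : 1 + (φ t ^ 2 - 1) = |φ t| ^ (2 : ℝ) := by
        rw [Real.rpow_two, sq_abs]; ring
      rw [h4, ← Real.rpow_mul (abs_nonneg _)]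
      congr 1; ring
    rw [Real.norm_eq_abs, abs_of_nonneg (div_nonneg (by linarith) (by positivity)), ← mul_div_assoc]
    apply div_le_div_of_nonneg_right _ (by positivity)
    linarith

theorem E2_nonneg (φ : ℝ → ℝ) : 0 ≤ E2 φ := by
  unfold E2
  apply integral_nonneg
  intro t
  positivity

/-! ### The indicator functions -/

noncomputable def u4 (φ : ℝ → ℝ) : ℝ → ℝ :=
  (Ioi (Real.pi / 2)).indicator (fun t => φ t ^ 2 / t ^ 2)

noncomputable def u3 (φ : ℝ → ℝ) : ℝ → ℝ :=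
  (Ioc 0 (Real.pi / 2)).indicator (fun t => φ t ^ 2 * (-Real.log |φ t|) / t ^ 2)

theorem int_u4 {φ : ℝ → ℝ} (h : IntegrableOn (fun t => φ t ^ 2 / t ^ 2) (Ioi (Real.pi / 2))) :
    IntegrableOn (u4 φ) (Ioi 0) ∧ ∫ t in Ioi (0 : ℝ), u4 φ t = E2 φ := by
  have hsub : Ioi (0 : ℝ) ∩ Ioi (Real.pi / 2) = Ioi (Real.pi / 2) := by
    apply inter_eq_right.2
    intro t ht
    exact lt_trans (by have := Real.pi_pos; positivity) (mem_Ioi.1 ht)
  constructor
  · unfold u4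
    exact ((integrable_indicator_iff measurableSet_Ioi).2 h).integrableOn
  · unfold u4
    rw [setIntegral_indicator measurableSet_Ioi, hsub]
    rfl

theorem int_u3 {φ : ℝ → ℝ}
    (h : IntegrableOn (fun t => φ t ^ 2 * (-Real.log |φ t|) / t ^ 2) (Ioc 0 (Real.pi / 2))) :
    IntegrableOn (u3 φ) (Ioi 0) ∧ ∫ t in Ioi (0 : ℝ), u3 φ t = LL φ := by
  have hsub : Ioi (0 : ℝ) ∩ Ioc 0 (Real.pi / 2) = Ioc 0 (Real.pi / 2) := by
    apply inter_eq_right.2
    intro t ht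
    exact ht.1
  constructor
  · unfold u3
    exact ((integrable_indicator_iff measurableSet_Ioc).2 h).integrableOn
  · unfold u3
    rw [setIntegral_indicator measurableSet_Ioc, hsub]
    rfl

/-! ### Part (b) -/

theorem partB_int (hNum : GNum) (hC0 : GC0) (hA1 : GA1) (hH : GH) (hE2 : GE2)
    {θ : ℝ} {φ : ℝ → ℝ} (hF : Fn θ φ) {s : ℝ} (hs : 2 ≤ s) :
    √(Real.pi * ((1 + vv θ) / 2 * s)) +
      s * cA θ * (1 + vv θ) ^ 2 / 4 * (√Real.pi / (4 * √((1 + vv θ) / 2 * s) ^ 3)) -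
      s ^ 2 * cA θ ^ 2 * (1 + vv θ) ^ 4 / 32 *
        (15 * √Real.pi / (16 * √((1 + vv θ) / 2 * s) ^ 7)) -
      HH θ ^ (s - 2) * E2 φ ≤ ∫ t in Ioi (0 : ℝ), (1 - |φ t| ^ s) / t ^ 2 := by
  obtain ⟨hv, hv2, hc, hH1, hH2, hk⟩ := bounds hNum hF.lo hF.hi
  obtain ⟨hHb, -, -, -⟩ := hH hNum θ φ hF
  obtain ⟨hi2, -, -⟩ := hE2 hNum θ φ hF
  set b : ℝ := (1 + vv θ) / 2 * s with hb
  have hbpos : 0 < b := by
    rw [hb]; apply mul_pos <;> linarith
  obtain ⟨hg1, hg2⟩ := hC0.2 b hbpos.le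
  obtain ⟨h21, h22⟩ := int_t2 hbpos
  obtain ⟨h61, h62⟩ := int_t6 hbpos
  obtain ⟨h41, h42⟩ := int_u4 hi2
  set c1 : ℝ := s * cA θ * (1 + vv θ) ^ 2 / 4 with hc1
  set c2 : ℝ := s ^ 2 * cA θ ^ 2 * (1 + vv θ) ^ 4 / 32 with hc2
  set c3 : ℝ := HH θ ^ (s - 2) with hc3
  have i1 : IntegrableOn (fun t : ℝ => (1 - Real.exp (-(b * t ^ 2))) / t ^ 2 +
      c1 * (t ^ 2 * Real.exp (-(b * t ^ 2)))) (Ioi 0) := hg1.add (h21.const_mul c1)
  have i2 : IntegrableOn (fun t : ℝ => (1 - Real.exp (-(b * t ^ 2))) / t ^ 2 +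
      c1 * (t ^ 2 * Real.exp (-(b * t ^ 2))) - c2 * (t ^ 6 * Real.exp (-(b * t ^ 2)))) (Ioi 0) :=
    i1.sub (h61.const_mul c2)
  have hLBint : IntegrableOn (fun t : ℝ => (1 - Real.exp (-(b * t ^ 2))) / t ^ 2 +
      c1 * (t ^ 2 * Real.exp (-(b * t ^ 2))) - c2 * (t ^ 6 * Real.exp (-(b * t ^ 2))) -
      c3 * u4 φ t) (Ioi 0) := i2.sub (h41.const_mul c3)
  have hLB : ∫ t in Ioi (0 : ℝ), ((1 - Real.exp (-(b * t ^ 2))) / t ^ 2 +
      c1 * (t ^ 2 * Real.exp (-(b * t ^ 2))) - c2 * (t ^ 6 * Real.exp (-(b * t ^ 2))) -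
      c3 * u4 φ t) = √(Real.pi * b) + c1 * (√Real.pi / (4 * √b ^ 3)) -
      c2 * (15 * √Real.pi / (16 * √b ^ 7)) - c3 * E2 φ := by
    rw [integral_sub i2 (h41.const_mul c3), integral_sub i1 (h61.const_mul c2),
      integral_add hg1 (h21.const_mul c1), integral_const_mul, integral_const_mul,
      integral_const_mul, hg2, h22, h62, h42]
  rw [← hLB]
  apply setIntegral_mono_on hLBint (intF1 hF hs) measurableSet_Ioi
  intro t ht
  have ht0 : (0 : ℝ) < t := ht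
  -- the elementary inequality
  set y : ℝ := s * cA θ * ((1 + vv θ) * t ^ 2 / 2) ^ 2 with hy
  have hy0 : 0 ≤ y := by
    rw [hy]; apply mul_nonneg (mul_nonneg (by linarith) (by linarith)) (sq_nonneg _)
  have hexp : 0 < Real.exp (-(b * t ^ 2)) := Real.exp_pos _
  have hkey : (1 - Real.exp (-(b * t ^ 2)) * (1 - y + y ^ 2 / 2)) / t ^ 2 =
      (1 - Real.exp (-(b * t ^ 2))) / t ^ 2 +
      c1 * (t ^ 2 * Real.exp (-(b * t ^ 2))) - c2 * (t ^ 6 * Real.exp (-(b * t ^ 2))) := by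
    rw [hy, hc1, hc2]
    field_simp
    ring
  rw [← hkey]
  rcases le_or_gt t (Real.pi / 2) with ht2 | ht2
  · have hu : u4 φ t = 0 := by
      unfold u4
      apply indicator_of_notMem
      simpa using ht2
    rw [hu, mul_zero, sub_zero]
    apply div_le_div_of_nonneg_right _ (by positivity)
    have h1 := hA1 θ φ hF t ht0.le ht2
    have h2 : |φ t| ^ s ≤ Real.exp (-(b * t ^ 2)) * Real.exp (-y) := by
      calc |φ t| ^ s ≤ (Real.exp (-((1 + vv θ) * t ^ 2 / 2) -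
            cA θ * ((1 + vv θ) * t ^ 2 / 2) ^ 2)) ^ s :=
            Real.rpow_le_rpow (abs_nonneg _) h1 (by linarith)
        _ = Real.exp (-(b * t ^ 2)) * Real.exp (-y) := by
            rw [← Real.exp_mul, ← Real.exp_add]; congr 1; rw [hb, hy]; ring
    have h3 : Real.exp (-(b * t ^ 2)) * Real.exp (-y) ≤
        Real.exp (-(b * t ^ 2)) * (1 - y + y ^ 2 / 2) :=
      mul_le_mul_of_nonneg_left (exp_neg_le hy0) hexp.le
    linarith
  · have hu : u4 φ t = φ t ^ 2 / t ^ 2 := by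
      unfold u4
      rw [indicator_of_mem (by simpa using ht2)]
    rw [hu, ← mul_div_assoc, ← sub_div]
    apply div_le_div_of_nonneg_right _ (by positivity)
    have h1 := hHb t ht2.le
    have h2 : |φ t| ^ s ≤ c3 * φ t ^ 2 := by
      have h3 : |φ t| ^ s = |φ t| ^ (s - 2) * φ t ^ 2 := by
        have h4 : s = (s - 2) + 2 := by ring
        conv_lhs => rw [h4]
        rw [Real.rpow_add_of_nonneg (abs_nonneg _) (by linarith) (by norm_num), Real.rpow_two,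
          sq_abs]
      rw [h3]
      apply mul_le_mul_of_nonneg_right _ (sq_nonneg _)
      exact Real.rpow_le_rpow (abs_nonneg _) h1 (by linarith)
    have h5 : 0 ≤ Real.exp (-(b * t ^ 2)) * (1 - y + y ^ 2 / 2) := by
      apply mul_nonneg hexp.le; nlinarith [sq_nonneg (y - 1)]
    linarith

theorem partB (hNum : GNum) (hC0 : GC0) (hA1 : GA1) (hH : GH) (hE2 : GE2) (hIb : GIb)
    {θ : ℝ} {φ : ℝ → ℝ} (hF : Fn θ φ) {s : ℝ} (hs : 3.25 ≤ s) :
    Real.pi / 2 * (2 : ℝ) ^ (θ - 1 / 2) * √s < ∫ t in Ioi (0 : ℝ), (1 - |φ t| ^ s) / t ^ 2 := by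
  obtain ⟨hv, hv2, hc, hH1, hH2, hk⟩ := bounds hNum hF.lo hF.hi
  obtain ⟨-, -, -, -, -, hA0⟩ := hNum.1 θ hF.lo hF.hi
  obtain ⟨-, hElo, hEhi⟩ := hE2 hNum θ φ hF
  have hlog := logH hNum hF.lo hF.hi
  have hI := hIb hNum θ hF.lo hF.hi
  refine lt_of_lt_of_le ?_ (partB_int hNum hC0 hA1 hH hE2 hF (by linarith : 2 ≤ s))
  rw [lhs_eq θ (by linarith : 0 ≤ s)]
  set S : ℝ := √s with hS
  set σ : ℝ := √(1 + vv θ) with hσ
  set P : ℝ := √Real.pi with hP
  set q : ℝ := √2 with hq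
  have hs0 : 0 < s := by linarith
  have hSpos : 0 < S := Real.sqrt_pos.2 hs0
  have hσpos : 0 < σ := Real.sqrt_pos.2 (by linarith)
  have hPpos : 0 < P := Real.sqrt_pos.2 Real.pi_pos
  have hqpos : 0 < q := Real.sqrt_pos.2 (by norm_num)
  have hS2 : S ^ 2 = s := Real.sq_sqrt hs0.le
  have hσ2 : σ ^ 2 = 1 + vv θ := Real.sq_sqrt (by linarith)
  have hP2 : P ^ 2 = Real.pi := Real.sq_sqrt Real.pi_pos.le
  have hq2 : q ^ 2 = 2 := Real.sq_sqrt (by norm_num)
  have hr : √((1 + vv θ) / 2 * s) = σ * S / q := by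
    rw [Real.sqrt_mul (by linarith), Real.sqrt_div (by linarith)]
    ring
  have hr2 : √(Real.pi * ((1 + vv θ) / 2 * s)) = P * (σ * S / q) := by
    rw [Real.sqrt_mul Real.pi_pos.le, hr]
  have hr3 : √((1 + vv θ) / 2) = σ / q := Real.sqrt_div (by linarith) _
  have hl : √(Real.pi * (kap θ * s)) = P * (√(Real.pi / 8) * (2 : ℝ) ^ θ * S) := by
    rw [Real.sqrt_mul Real.pi_pos.le, Real.sqrt_mul (kap_pos θ).le]
    unfold kap
    rw [Real.sqrt_mul (by have := Real.pi_pos; positivity), Real.sqrt_sq (tw_pos θ).le]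
  set A : ℝ := √((1 + vv θ) / 2) - √(Real.pi / 8) * (2 : ℝ) ^ θ with hA
  have hAe : √(Real.pi / 8) * (2 : ℝ) ^ θ = σ / q - A := by rw [hA, hr3]; ring
  rw [hr2, hr, hl, hAe]
  have hE0 := E2_nonneg φ
  -- the second and third terms
  have e2 : s * cA θ * (1 + vv θ) ^ 2 / 4 * (P / (4 * (σ * S / q) ^ 3)) =
      cA θ * σ * (q * P) / (8 * S) := by
    rw [← hσ2, ← hS2]
    field_simp
    rw [hq2]
    norm_num
  have e3 : s ^ 2 * cA θ ^ 2 * (1 + vv θ) ^ 4 / 32 * (15 * P / (16 * (σ * S / q) ^ 7)) =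
      15 * cA θ ^ 2 * σ * (q * P) / (64 * S ^ 3) := by
    rw [← hσ2, ← hS2]
    have hq6 : q ^ 6 = 8 := by
      calc q ^ 6 = (q ^ 2) ^ 3 := by ring
        _ = 8 := by rw [hq2]; norm_num
    field_simp
    rw [hq6]
    norm_num
  rw [e2, e3]
  -- numerical bounds of `q P = √(2π)`
  have hqP2 : (q * P) ^ 2 = 2 * Real.pi := by rw [mul_pow, hq2, hP2]
  have hpi1 := Real.pi_gt_d6
  have hpi2 := Real.pi_lt_d6
  have hqP0 : 0 < q * P := by positivity
  have hqPlo : 2.5064 ≤ q * P := by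
    by_contra hcon
    rw [not_le] at hcon
    have : (q * P) ^ 2 < 2.5064 ^ 2 := by
      apply pow_lt_pow_left₀ hcon hqP0.le (by norm_num)
    rw [hqP2] at this
    norm_num at this hpi1
    linarith
  have hqPhi : q * P ≤ 2.50666 := by
    by_contra hcon
    rw [not_le] at hcon
    have : (2.50666 : ℝ) ^ 2 < (q * P) ^ 2 := by
      apply pow_lt_pow_left₀ hcon (by norm_num) (by norm_num)
    rw [hqP2] at this
    norm_num at this hpi2
    linarith
  -- decay of `H^(s-2) √s`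
  set Z : ℝ := √3.25 with hZ
  have hZpos : 0 < Z := Real.sqrt_pos.2 (by norm_num)
  have hZ2 : Z ^ 2 = 3.25 := Real.sq_sqrt (by norm_num)
  have hHpos : 0 < HH θ := by linarith
  have hdec : HH θ ^ (s - 2) * S ≤ HH θ ^ (1.25 : ℝ) * Z := by
    set u : ℝ := s - 3.25 with hu
    have hu0 : 0 ≤ u := by rw [hu]; linarith
    have h1 : s - 2 = 1.25 + u := by rw [hu]; norm_num; ring
    rw [h1, Real.rpow_add hHpos]
    have h2 : S ≤ Z * Real.exp (u / 6.5) := by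
      have h3 : 1 + u / 6.5 ≤ Real.exp (u / 6.5) := by
        have := Real.add_one_le_exp (u / 6.5); linarith
      have h4 : S ≤ Z * (1 + u / 6.5) := by
        apply (pow_le_pow_iff_left₀ hSpos.le (by positivity) two_ne_zero).1
        rw [hS2, mul_pow, hZ2]
        have : s = 3.25 + u := by rw [hu]; ring
        rw [this]
        have e : (3.25 : ℝ) * (1 + u / 6.5) ^ 2 = 3.25 + u + u ^ 2 / 13 := by norm_num; ring
        rw [e]
        have := sq_nonneg u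
        linarith
      exact h4.trans (mul_le_mul_of_nonneg_left h3 hZpos.le)
    have h5 : HH θ ^ u * Real.exp (u / 6.5) ≤ 1 := by
      rw [Real.rpow_def_of_pos hHpos, ← Real.exp_add]
      apply Real.exp_le_one_iff.2
      have : u * (Real.log (HH θ) + 1 / 6.5) ≤ 0 := by
        apply mul_nonpos_of_nonneg_of_nonpos hu0
        norm_num at hlog ⊢
        linarith
      have e : Real.log (HH θ) * u + u / 6.5 = u * (Real.log (HH θ) + 1 / 6.5) := by ring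
      rw [e]; exact this
    have h6 : 0 < HH θ ^ (1.25 : ℝ) := Real.rpow_pos_of_pos hHpos _
    have h7 : 0 < HH θ ^ u := Real.rpow_pos_of_pos hHpos _
    calc HH θ ^ (1.25 : ℝ) * HH θ ^ u * S ≤ HH θ ^ (1.25 : ℝ) * HH θ ^ u *
          (Z * Real.exp (u / 6.5)) := mul_le_mul_of_nonneg_left h2 (by positivity)
      _ = HH θ ^ (1.25 : ℝ) * Z * (HH θ ^ u * Real.exp (u / 6.5)) := by ring
      _ ≤ HH θ ^ (1.25 : ℝ) * Z * 1 := mul_le_mul_of_nonneg_left h5 (by positivity)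
      _ = HH θ ^ (1.25 : ℝ) * Z := by ring
  have hI' : HH θ ^ (1.25 : ℝ) * Z * E2 φ <
      3.25 * P * A + 0.3133 * cA θ * σ - 0.5875 * cA θ ^ 2 * σ / 3.25 := by
    have h1 : √(3.25 * Real.pi) = Z * P := Real.sqrt_mul (by norm_num) _
    rw [h1] at hI
    have h2 : HH θ ^ (1.25 : ℝ) * E2 φ ≤ HH θ ^ (1.25 : ℝ) * E2hi θ :=
      mul_le_mul_of_nonneg_left hEhi (Real.rpow_pos_of_pos hHpos _).le
    have h3 := lt_of_le_of_lt h2 hI
    have h4 := mul_lt_mul_of_pos_left h3 hZpos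
    have h5 : Z * (Z * P * A + 0.3133 * cA θ * σ / Z - 0.5875 * cA θ ^ 2 * σ / (3.25 * Z)) =
        Z ^ 2 * P * A + 0.3133 * cA θ * σ - 0.5875 * cA θ ^ 2 * σ / 3.25 := by
      field_simp
    rw [h5, hZ2] at h4
    calc HH θ ^ (1.25 : ℝ) * Z * E2 φ = Z * (HH θ ^ (1.25 : ℝ) * E2 φ) := by ring
      _ < _ := h4
  have hdecE : HH θ ^ (s - 2) * S * E2 φ ≤ HH θ ^ (1.25 : ℝ) * Z * E2 φ :=
    mul_le_mul_of_nonneg_right hdec hE0
  have hcpos : 0 < cA θ := by linarith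
  -- multiply by `S`
  have t1 : 3.25 * P * A ≤ s * P * A := by
    apply mul_le_mul_of_nonneg_right _ hA0
    exact mul_le_mul_of_nonneg_right hs hPpos.le
  have t2 : 0.3133 * cA θ * σ ≤ cA θ * σ * (q * P) / 8 := by
    rw [le_div_iff₀ (by norm_num)]
    have : 0 < cA θ * σ := by positivity
    nlinarith
  have t3 : 15 * cA θ ^ 2 * σ * (q * P) / (64 * s) ≤ 0.5875 * cA θ ^ 2 * σ / 3.25 := by
    have h0 : 0 < cA θ ^ 2 * σ := by positivity
    have h1 : 15 * cA θ ^ 2 * σ * (q * P) / (64 * s) ≤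
        15 * cA θ ^ 2 * σ * (q * P) / (64 * 3.25) := by
      apply div_le_div_of_nonneg_left (by positivity) (by norm_num)
      linarith
    refine h1.trans ?_
    rw [div_le_div_iff₀ (by norm_num) (by norm_num)]
    nlinarith
  have hfinal : 0 < s * P * A + cA θ * σ * (q * P) / 8 -
      15 * cA θ ^ 2 * σ * (q * P) / (64 * s) - HH θ ^ (s - 2) * S * E2 φ := by
    linarith
  have hdiv : P * (σ * S / q) + cA θ * σ * (q * P) / (8 * S) -
      15 * cA θ ^ 2 * σ * (q * P) / (64 * S ^ 3) - HH θ ^ (s - 2) * E2 φ -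
      P * ((σ / q - A) * S) = (s * P * A + cA θ * σ * (q * P) / 8 -
      15 * cA θ ^ 2 * σ * (q * P) / (64 * s) - HH θ ^ (s - 2) * S * E2 φ) / S := by
    rw [← hS2]
    field_simp
    ring
  have := div_pos hfinal hSpos
  rw [← hdiv] at this
  linarith

/-! ### Part (a) -/

theorem int_gauss {k : ℝ} (hk : 0 < k) :
    IntegrableOn (fun t : ℝ => Real.exp (-(k * t ^ 2))) (Ioi 0) ∧
    ∫ t in Ioi (0 : ℝ), Real.exp (-(k * t ^ 2)) = √(Real.pi / k) / 2 := by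
  have e : (fun t : ℝ => Real.exp (-(k * t ^ 2))) = fun t : ℝ => Real.exp (-k * t ^ 2) := by
    funext t; ring_nf
  rw [e]
  exact ⟨(integrable_exp_neg_mul_sq hk).integrableOn, integral_gaussian_Ioi k⟩

noncomputable def u1 (θ : ℝ) (φ : ℝ → ℝ) (t : ℝ) : ℝ :=
  (1 - φ t ^ 2) / t ^ 2 + u4 φ t - (1 - Real.exp (-(2 * kap θ * t ^ 2))) / t ^ 2

noncomputable def u2 (θ : ℝ) (t : ℝ) : ℝ := -(kap θ * Real.exp (-(2 * kap θ * t ^ 2)))

noncomputable def uB (θ : ℝ) (φ : ℝ → ℝ) (c l t : ℝ) : ℝ :=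
  (1 - c * l) / 2 * u1 θ φ t + c * (u2 θ t / 2 + u3 φ t / 2 - u1 θ φ t / 4)

theorem partA_int (hNum : GNum) (hC0 : GC0) (hA1 : GA1) (hH : GH) (hE2 : GE2) (hLL : GLL)
    {θ : ℝ} {φ : ℝ → ℝ} (hF : Fn θ φ) {c : ℝ} (hc : 0 ≤ c) (l : ℝ) :
    √(Real.pi * (kap θ * (2 + c))) + (2 + c) * Real.exp (c * l) *
      ((1 - c * l) / 2 * E2 φ +
        c * (-(Real.pi / 8 * (2 : ℝ) ^ θ) / 2 + LL φ / 2 - E2 φ / 4)) -
      HH θ ^ c * E2 φ ≤ ∫ t in Ioi (0 : ℝ), (1 - |φ t| ^ (2 + c)) / t ^ 2 := by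
  obtain ⟨hv, hv2, hcA, hH1, hH2, hk⟩ := bounds hNum hF.lo hF.hi
  obtain ⟨hHb, -, -, -⟩ := hH hNum θ φ hF
  obtain ⟨hi2, -, -⟩ := hE2 hNum θ φ hF
  obtain ⟨hi3, -⟩ := hLL hNum θ φ hF
  have hk0 := kap_pos θ
  have hs0 : 0 < 2 + c := by linarith
  obtain ⟨hg1, hg2⟩ := hC0.2 (kap θ * (2 + c)) (by positivity)
  obtain ⟨hm1, hm2⟩ := hC0.2 (2 * kap θ) (by positivity)
  obtain ⟨h41, h42⟩ := int_u4 hi2
  obtain ⟨h31, h32⟩ := int_u3 hi3
  obtain ⟨h21, h22⟩ := int_gauss (show 0 < 2 * kap θ by positivity)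
  have a1 : IntegrableOn (fun t => (1 - φ t ^ 2) / t ^ 2 + u4 φ t) (Ioi 0) := hF.int2.add h41
  have h1i : IntegrableOn (u1 θ φ) (Ioi 0) := a1.sub hm1
  have h1v : ∫ t in Ioi (0 : ℝ), u1 θ φ t = E2 φ := by
    show ∫ t in Ioi (0 : ℝ), ((1 - φ t ^ 2) / t ^ 2 + u4 φ t -
      (1 - Real.exp (-(2 * kap θ * t ^ 2))) / t ^ 2) = E2 φ
    rw [integral_sub a1 hm1, integral_add hF.int2 h41, hF.eq2, h42, hm2]
    have e : Real.pi * (2 * kap θ) = (Real.pi / 2 * (2 : ℝ) ^ θ) ^ 2 := by unfold kap; ring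
    rw [e, Real.sqrt_sq (by have := Real.pi_pos; have := tw_pos θ; positivity)]
    ring
  have h2v : ∫ t in Ioi (0 : ℝ), u2 θ t = -(Real.pi / 8 * (2 : ℝ) ^ θ) := by
    show ∫ t in Ioi (0 : ℝ), -(kap θ * Real.exp (-(2 * kap θ * t ^ 2))) = _
    rw [integral_neg, integral_const_mul, h22]
    have htw := tw_pos θ
    have hpi := Real.pi_pos
    have e : Real.pi / (2 * kap θ) = (2 / (2 : ℝ) ^ θ) ^ 2 := by
      unfold kap; field_simp; norm_num
    rw [e, Real.sqrt_sq (by positivity)]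
    unfold kap
    field_simp
  have h2i : IntegrableOn (u2 θ) (Ioi 0) := (h21.const_mul _).neg
  have a2 : IntegrableOn (fun t => u2 θ t / 2 + u3 φ t / 2) (Ioi 0) :=
    (h2i.div_const 2).add (h31.div_const 2)
  have a3 : IntegrableOn (fun t => u2 θ t / 2 + u3 φ t / 2 - u1 θ φ t / 4) (Ioi 0) :=
    a2.sub (h1i.div_const 4)
  have hBi : IntegrableOn (uB θ φ c l) (Ioi 0) := (h1i.const_mul _).add (a3.const_mul c)
  have hBv : ∫ t in Ioi (0 : ℝ), uB θ φ c l t = (1 - c * l) / 2 * E2 φ +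
        c * (-(Real.pi / 8 * (2 : ℝ) ^ θ) / 2 + LL φ / 2 - E2 φ / 4) := by
    show ∫ t in Ioi (0 : ℝ), ((1 - c * l) / 2 * u1 θ φ t +
      c * (u2 θ t / 2 + u3 φ t / 2 - u1 θ φ t / 4)) = _
    rw [integral_add (h1i.const_mul _) (a3.const_mul c), integral_const_mul, integral_const_mul,
      integral_sub a2 (h1i.div_const 4), integral_add (h2i.div_const 2) (h31.div_const 2),
      integral_div, integral_div, integral_div, h1v, h2v, h32]
  have a4 : IntegrableOn (fun t => (1 - Real.exp (-(kap θ * (2 + c) * t ^ 2))) / t ^ 2 +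
      (2 + c) * Real.exp (c * l) * uB θ φ c l t) (Ioi 0) := hg1.add (hBi.const_mul _)
  have hLBi : IntegrableOn (fun t => (1 - Real.exp (-(kap θ * (2 + c) * t ^ 2))) / t ^ 2 +
      (2 + c) * Real.exp (c * l) * uB θ φ c l t - HH θ ^ c * u4 φ t) (Ioi 0) :=
    a4.sub (h41.const_mul _)
  have hLBv : ∫ t in Ioi (0 : ℝ), ((1 - Real.exp (-(kap θ * (2 + c) * t ^ 2))) / t ^ 2 +
      (2 + c) * Real.exp (c * l) * uB θ φ c l t - HH θ ^ c * u4 φ t) =
      √(Real.pi * (kap θ * (2 + c))) + (2 + c) * Real.exp (c * l) *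
      ((1 - c * l) / 2 * E2 φ +
        c * (-(Real.pi / 8 * (2 : ℝ) ^ θ) / 2 + LL φ / 2 - E2 φ / 4)) -
      HH θ ^ c * E2 φ := by
    rw [integral_sub a4 (h41.const_mul _),
      integral_add hg1 (hBi.const_mul _), integral_const_mul, integral_const_mul, hBv, h42, hg2]
  rw [← hLBv]
  apply setIntegral_mono_on hLBi (intF1 hF (by linarith)) measurableSet_Ioi
  intro t ht
  have ht0 : (0 : ℝ) < t := ht
  set g : ℝ := Real.exp (-(kap θ * t ^ 2)) with hg
  have hgpos : 0 < g := Real.exp_pos _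
  have hg2' : Real.exp (-(2 * kap θ * t ^ 2)) = g ^ 2 := by
    rw [hg, ← Real.exp_nat_mul]; congr 1; push_cast; ring
  have hgs : Real.exp (-(kap θ * (2 + c) * t ^ 2)) = g ^ (2 + c) := by
    rw [hg, ← Real.exp_mul]; congr 1; ring
  have hlog : Real.log g = -(kap θ * t ^ 2) := by rw [hg, Real.log_exp]
  have hGg : GG g = g ^ 2 * (-(kap θ * t ^ 2)) / 2 - g ^ 2 / 4 := by
    unfold GG; rw [hlog]; ring
  unfold uB u1 u2
  rw [hg2', hgs]
  rcases le_or_gt t (Real.pi / 2) with ht2 | ht2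
  · have hu : u4 φ t = 0 := by
      unfold u4
      apply indicator_of_notMem
      simpa using ht2
    have hu3 : u3 φ t = φ t ^ 2 * (-Real.log |φ t|) / t ^ 2 := by
      unfold u3
      rw [indicator_of_mem (show t ∈ Ioc 0 (Real.pi / 2) from ⟨ht0, ht2⟩)]
    have hle := phi_le hNum hA1 hF ht0.le ht2
    have hkey := key_scalar c l |φ t| g hc (abs_nonneg _) hle
    have hGp : GG |φ t| = φ t ^ 2 * Real.log |φ t| / 2 - φ t ^ 2 / 4 := by
      unfold GG
      rw [← sq_abs (φ t)]; ring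
    rw [hGg, hGp, sq_abs] at hkey
    rw [hu, hu3]
    have e : (1 - g ^ (2 + c)) / t ^ 2 + (2 + c) * Real.exp (c * l) *
        ((1 - c * l) / 2 * ((1 - φ t ^ 2) / t ^ 2 + 0 - (1 - g ^ 2) / t ^ 2) +
        c * (-(kap θ * g ^ 2) / 2 + φ t ^ 2 * (-Real.log |φ t|) / t ^ 2 / 2 -
        ((1 - φ t ^ 2) / t ^ 2 + 0 - (1 - g ^ 2) / t ^ 2) / 4)) - HH θ ^ c * 0 =
        ((1 - g ^ (2 + c)) + (2 + c) * Real.exp (c * l) *
        ((1 - c * l) * (g ^ 2 - φ t ^ 2) / 2 + c * ((g ^ 2 * (-(kap θ * t ^ 2)) / 2 - g ^ 2 / 4) -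
        (φ t ^ 2 * Real.log |φ t| / 2 - φ t ^ 2 / 4)))) / t ^ 2 := by
      field_simp
      ring
    rw [e]
    apply div_le_div_of_nonneg_right _ (by positivity)
    linarith
  · have hu : u4 φ t = φ t ^ 2 / t ^ 2 := by
      unfold u4
      rw [indicator_of_mem (by simpa using ht2)]
    have hu3 : u3 φ t = 0 := by
      unfold u3
      apply indicator_of_notMem
      rintro ⟨-, h⟩
      exact absurd h (not_le.2 ht2)
    have hkey := key_scalar c l 0 g hc le_rfl hgpos.le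
    have hG0 : GG 0 = 0 := by unfold GG; simp
    rw [hGg, hG0, Real.zero_rpow hs0.ne'] at hkey
    have h2 : |φ t| ^ (2 + c) ≤ HH θ ^ c * φ t ^ 2 := by
      have h3 : |φ t| ^ (2 + c) = |φ t| ^ c * φ t ^ 2 := by
        rw [add_comm, Real.rpow_add_of_nonneg (abs_nonneg _) hc (by norm_num), Real.rpow_two,
          sq_abs]
      rw [h3]
      apply mul_le_mul_of_nonneg_right _ (sq_nonneg _)
      exact Real.rpow_le_rpow (abs_nonneg _) (hHb t ht2.le) hc
    rw [hu, hu3]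
    have e : (1 - g ^ (2 + c)) / t ^ 2 + (2 + c) * Real.exp (c * l) *
        ((1 - c * l) / 2 * ((1 - φ t ^ 2) / t ^ 2 + φ t ^ 2 / t ^ 2 - (1 - g ^ 2) / t ^ 2) +
        c * (-(kap θ * g ^ 2) / 2 + 0 / 2 -
        ((1 - φ t ^ 2) / t ^ 2 + φ t ^ 2 / t ^ 2 - (1 - g ^ 2) / t ^ 2) / 4)) -
        HH θ ^ c * (φ t ^ 2 / t ^ 2) =
        ((1 - g ^ (2 + c)) + (2 + c) * Real.exp (c * l) *
        ((1 - c * l) * (g ^ 2 - 0 ^ 2) / 2 + c * ((g ^ 2 * (-(kap θ * t ^ 2)) / 2 - g ^ 2 / 4) -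
        0)) - HH θ ^ c * φ t ^ 2) / t ^ 2 := by
      field_simp
      ring
    rw [e]
    apply div_le_div_of_nonneg_right _ (by positivity)
    linarith

theorem partA (hNum : GNum) (hC0 : GC0) (hA1 : GA1) (hH : GH) (hE2 : GE2) (hLL : GLL)
    (hIa : GIa) {θ : ℝ} {φ : ℝ → ℝ} (hF : Fn θ φ) {c : ℝ} (hc : 0 ≤ c) (hc2 : c ≤ 1.25) :
    Real.pi / 2 * (2 : ℝ) ^ (θ - 1 / 2) * √(2 + c) ≤
      ∫ t in Ioi (0 : ℝ), (1 - |φ t| ^ (2 + c)) / t ^ 2 ∧
    (0 < c → Real.pi / 2 * (2 : ℝ) ^ (θ - 1 / 2) * √(2 + c) <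
      ∫ t in Ioi (0 : ℝ), (1 - |φ t| ^ (2 + c)) / t ^ 2) := by
  obtain ⟨hv, hv2, hcA, hH1, hH2, hk⟩ := bounds hNum hF.lo hF.hi
  obtain ⟨-, hElo, hEhi⟩ := hE2 hNum θ φ hF
  obtain ⟨-, hLlo⟩ := hLL hNum θ φ hF
  have hI := hIa hNum θ hF.lo hF.hi
  have hlog := logH hNum hF.lo hF.hi
  have hHpos : 0 < HH θ := by linarith
  set l : ℝ := Real.log (HH θ) - 0.388 with hl
  have hmain := partA_int hNum hC0 hA1 hH hE2 hLL hF hc l
  rw [lhs_eq θ (by linarith : 0 ≤ 2 + c)]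
  have hE0 := E2_nonneg φ
  set X : ℝ := LL φ - Real.pi / 8 * (2 : ℝ) ^ θ - (1 / 2 + l) * E2 φ with hX
  have hXpos : 0 < X := by
    have h1 : (-0.112 - Real.log (HH θ)) * E2lo θ ≤ (-0.112 - Real.log (HH θ)) * E2 φ := by
      apply mul_le_mul_of_nonneg_left hElo
      norm_num at hlog ⊢
      linarith
    have h2 : X = LL φ - Real.pi / 8 * (2 : ℝ) ^ θ + (-0.112 - Real.log (HH θ)) * E2 φ := by
      rw [hX, hl]; ring
    rw [h2]
    linarith
  have hexp : Real.exp (c * l) = HH θ ^ c * Real.exp (-(0.388 * c)) := by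
    rw [Real.rpow_def_of_pos hHpos, ← Real.exp_add]; congr 1; rw [hl]; ring
  have hHc : 0 < HH θ ^ c := Real.rpow_pos_of_pos hHpos _
  have h1 : 1 ≤ (1 + c / 2) * Real.exp (-(0.388 * c)) := by
    have h2 := exp388 hc hc2
    have h3 : Real.exp (0.388 * c) * Real.exp (-(0.388 * c)) = 1 := by
      rw [← Real.exp_add]; simp
    calc (1 : ℝ) = Real.exp (0.388 * c) * Real.exp (-(0.388 * c)) := h3.symm
      _ ≤ _ := mul_le_mul_of_nonneg_right h2 (Real.exp_pos _).le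
  have h4 : HH θ ^ c * E2 φ ≤ (2 + c) * Real.exp (c * l) / 2 * E2 φ := by
    apply mul_le_mul_of_nonneg_right _ hE0
    rw [hexp]
    calc HH θ ^ c = HH θ ^ c * 1 := by ring
      _ ≤ HH θ ^ c * ((1 + c / 2) * Real.exp (-(0.388 * c))) :=
          mul_le_mul_of_nonneg_left h1 hHc.le
      _ = _ := by ring
  have h5 : (2 + c) * Real.exp (c * l) * ((1 - c * l) / 2 * E2 φ +
        c * (-(Real.pi / 8 * (2 : ℝ) ^ θ) / 2 + LL φ / 2 - E2 φ / 4)) =
      (2 + c) * Real.exp (c * l) / 2 * E2 φ + (2 + c) * Real.exp (c * l) / 2 * (c * X) := by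
    rw [hX]; ring
  have hpre : 0 < (2 + c) * Real.exp (c * l) / 2 := by
    have := Real.exp_pos (c * l); positivity
  constructor
  · have h6 : 0 ≤ (2 + c) * Real.exp (c * l) / 2 * (c * X) := by positivity
    linarith
  · intro hc0
    have h6 : 0 < (2 + c) * Real.exp (c * l) / 2 * (c * X) := by positivity
    linarith

/-! ### The theorem -/

theorem gI1 : GI1 := by
  intro hNum hC0 hA1 hH hE2 hLL hIa hIb θ φ hF s hs
  refine ⟨intF1 hF hs, ?_, ?_⟩
  · rcases le_or_gt s 3.25 with h | h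
    · have := (partA hNum hC0 hA1 hH hE2 hLL hIa hF (c := s - 2) (by linarith)
        (by norm_num at h ⊢; linarith)).1
      rwa [show 2 + (s - 2) = s by ring] at this
    · exact (partB hNum hC0 hA1 hH hE2 hIb hF h.le).le
  · intro hs2
    rcases le_or_gt s 3.25 with h | h
    · have := (partA hNum hC0 hA1 hH hE2 hLL hIa hF (c := s - 2) (by linarith)
        (by norm_num at h ⊢; linarith)).2 (by linarith)
      rwa [show 2 + (s - 2) = s by ring] at this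
    · exact partB hNum hC0 hA1 hH hE2 hIb hF h.le

end Pool.Agent.Helper13.Pq
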